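import Pool.Agent.H93.SV.Sct

/-!
# A trichotomy for the successors in HOD of singular cardinals above a strongly compact cardinal

The universe of sets is `ZFSet.{u}`. The definitions of `HOD`, `HODReg`, `IsCard`, `Club` and
`NotStrMeas` (regular uncountable and not `ω`-strongly measurable in HOD) are those of the library
module `Results.MP_e37c09_lc.AlternativeA` and the modules it imports. `Cf μ α` (file
`Pool/Agent/H93/HM/Cof.lean`) says that the cofinality of `α` is `μ`, and `HSucc γ l` (file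
`Pool/Agent/H93/SC/Def.lean`) that `l` is the least regular cardinal of HOD above `γ`. If `γ` is a
cardinal this is the successor of `γ` in HOD. `StronglyCompact` is defined in the file
`Pool/Agent/H93/SV/Sco.lean`.

Let `δ` be a strongly compact cardinal, and let `l > δ` be a cardinal of uncountable cofinality (for
example a regular limit cardinal). Then one of the following three statements holds for all singular
cardinals `κ` in a closed unbounded subset of `l`.

1. `(κ⁺)^HOD = κ⁺`, and `κ⁺` is not `ω`-strongly measurable in HOD.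
2. `(κ⁺)^HOD` has cofinality `ω`.
3. `(κ⁺)^HOD` has the cofinality of `κ`.
-/

set_option autoImplicit false

universe u

namespace Pool.Agent.Results.MP_fd273a_lc.StronglyCompactTrichotomy

open ZFSet Gss969 Pool.Agent.H310.HD Pool.Agent.H93.HM Pool.Agent.H93.SC Pool.Agent.H93.SV

theorem result (δ l μ : Ordinal.{u}) (hδ : StronglyCompact δ) (hδl : δ < l)
    (hl : IsCard l.toZFSet) (hcf : Cf μ.toZFSet l.toZFSet) (hω : Ordinal.omega0 < μ) :
    (∃ C, C ⊆ l.toZFSet ∧ Club C l.toZFSet ∧ ∀ κ ν s : Ordinal.{u}, κ.toZFSet ∈ C →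
      IsCard κ.toZFSet → Cf ν.toZFSet κ.toZFSet → ν < κ → HSucc κ s →
        s = (Order.succ κ.card).ord ∧ ∀ b : Bool, NotStrMeas b s) ∨
    (∃ C, C ⊆ l.toZFSet ∧ Club C l.toZFSet ∧ ∀ κ ν s : Ordinal.{u}, κ.toZFSet ∈ C →
      IsCard κ.toZFSet → Cf ν.toZFSet κ.toZFSet → ν < κ → HSucc κ s →
        Cf Ordinal.omega0.toZFSet s.toZFSet) ∨
    (∃ C, C ⊆ l.toZFSet ∧ Club C l.toZFSet ∧ ∀ κ ν s : Ordinal.{u}, κ.toZFSet ∈ C →
      IsCard κ.toZFSet → Cf ν.toZFSet κ.toZFSet → ν < κ → HSucc κ s →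
        Cf ν.toZFSet s.toZFSet) := by
  rcases (Cf.le hcf).lt_or_eq with h1 | h1
  · obtain ⟨s, hs⟩ := exists_hs l
    rcases silver hl hcf hω h1 hs with h2 | h2 | h2
    · obtain ⟨_, _, C, hC1, hC2, hC3⟩ := h2
      exact Or.inl ⟨C, hC1, hC2, fun κ ν s hκ _ _ _ hs => hC3 κ s hκ hs⟩
    · obtain ⟨_, C, hC1, hC2, hC3⟩ := h2
      exact Or.inr (Or.inl ⟨C, hC1, hC2, fun κ ν s hκ _ _ _ hs => hC3 κ s hκ hs⟩)
    · obtain ⟨_, C, hC1, hC2, hC3⟩ := h2
      exact Or.inr (Or.inr ⟨C, hC1, hC2, fun κ ν s hκ _ hν _ hs => (hC3 κ s hκ hs ν).1 hν⟩)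
  · rw [h1] at hcf hω
    exact tri_reg hδ hδl (regUnc_of_cf hcf hω)

end Pool.Agent.Results.MP_fd273a_lc.StronglyCompactTrichotomy
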